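import Pool.Agent.Q148.CN.All

set_option autoImplicit false

/-!
# Even congruent numbers in almost all intervals of length `x ^ (11/21)`

For every modulus `M` and `η > 0` there is `K` such that for all but at most `η X` of the natural
numbers `x ≤ X` every residue class modulo `M` that contains an even squarefree number contains an even
squarefree congruent number in `[x, x + K x ^ (11/21)]`.

Proof.  Let `W` be a multiple of `2 M B` and of all small primes.  With `v = B W ^ 2 t ^ 2` and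
`u ≡ 1` modulo `W` the number `n = B u (u ^ 2 - v ^ 2)` is congruent and `n ≡ B` modulo `W`.  For
`t ∈ (T, 2 T]`, `T` about `x ^ (1/7)`, the inverse functions of `u ↦ u (u ^ 2 - v ^ 2)` are
`g_t (ξ) = ξ + v ^ 2 / (3 ξ) - v ^ 6 / (81 ξ ^ 5) + v ^ 8 / (243 ξ ^ 7)`, `ξ = (x / B) ^ (1/3)`, up
to a negligible error.  A trigonometric minorant of degree `2 L` of the interval `‖y‖ < 1 / L`,
`L` about `T`, summed over the values `(g_t (ξ) - 1) / W`, has small variance in `ξ`: the
nondiagonal terms are oscillatory integrals, estimated by the first and second derivative tests.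
So for almost all `ξ` many `t` have an integer `u ≡ 1` modulo `W` near `g_t (ξ)`.  The pairs `(u, t)`
for which `n` is not squarefree have small density and are removed.
-/

namespace Pool.Agent.Results.MP_f126a2_nt.AlmostAllShortIntervals

/-- `n` is the area of a right triangle with rational sides -/
def IsCongruent (n : ℕ) : Prop :=
  ∃ a b c : ℚ, 0 < a ∧ 0 < b ∧ 0 < c ∧ a ^ 2 + b ^ 2 = c ^ 2 ∧ (n : ℚ) = a * b / 2

/-- **Even squarefree congruent numbers in residue classes in almost all short intervals.**  For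
every `M ≥ 1` and every `η > 0` there are `K` and `X₀` such that for all real `X ≥ X₀`, for all but
at most `η X` natural numbers `x ≤ X` the following holds: for every even squarefree `k` the interval
`[x, x + K x ^ (11 / 21)]` contains an even squarefree congruent number `n ≡ k` modulo `M`. -/
theorem result (M : ℕ) (hM : 0 < M) (η : ℝ) (hη : 0 < η) :
    ∃ K X₀ : ℝ, ∀ X : ℝ, X₀ ≤ X →
      ({x : ℕ | (x : ℝ) ≤ X ∧ ¬ ∀ k : ℕ, Squarefree k → Even k →
        ∃ n : ℕ, x ≤ n ∧ (n : ℝ) ≤ x + K * (x : ℝ) ^ (11 / 21 : ℝ) ∧ Squarefree n ∧ Even n ∧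
          n ≡ k [MOD M] ∧ IsCongruent n}.ncard : ℝ) ≤ η * X := by
  obtain ⟨K, X₀, h⟩ := Pool.Agent.Q148.CN.all_classes M hM η hη
  refine ⟨K, X₀, ?_⟩
  intro X hX
  refine le_trans ?_ (h X hX)
  have hfin : {x : ℕ | (x : ℝ) ≤ X ∧ ¬ ∀ k : ℕ, Squarefree k →
      Pool.Agent.Q148.CN.PK k (2 * M) K x}.Finite := by
    apply (Set.finite_Iic ⌊X⌋₊).subset
    intro x hx
    exact Nat.le_floor hx.1
  have hsub : {x : ℕ | (x : ℝ) ≤ X ∧ ¬ ∀ k : ℕ, Squarefree k → Even k →
        ∃ n : ℕ, x ≤ n ∧ (n : ℝ) ≤ x + K * (x : ℝ) ^ (11 / 21 : ℝ) ∧ Squarefree n ∧ Even n ∧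
          n ≡ k [MOD M] ∧ IsCongruent n} ⊆
      {x : ℕ | (x : ℝ) ≤ X ∧ ¬ ∀ k : ℕ, Squarefree k → Pool.Agent.Q148.CN.PK k (2 * M) K x} := by
    intro x hx
    refine ⟨hx.1, ?_⟩
    intro h1
    apply hx.2
    intro k hk hkp
    obtain ⟨n, h2, h3, h4, h5, h6⟩ := h1 k hk
    refine ⟨n, h2, h3, h4, ?_, h5.of_dvd (Dvd.intro_left 2 rfl), h6⟩
    have h7 : n ≡ k [MOD 2] := h5.of_dvd (Dvd.intro M rfl)
    have h8 : n % 2 = k % 2 := h7
    rw [Nat.even_iff] at hkp ⊢
    omega
  exact_mod_cast Set.ncard_le_ncard hsub hfin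

end Pool.Agent.Results.MP_f126a2_nt.AlmostAllShortIntervals
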