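import Pool.Agent.CNC.F

/-!
# Bounded clusters of even squarefree congruent numbers in every residue class

For every even squarefree `k`, every modulus `M` and every `m` there are `0 = d 0 < d 1 < ... < d m` such that for all large
`X` and all `Y` between `C X ^ (11/12)` and `X` at least `c Y / X ^ (3/4)` of the `n` in `[X, X + Y]` have the property that
all `m + 1` numbers `n + d i` are even squarefree congruent numbers in the class of `k` modulo `M`. So at least `c X ^ (1/4)`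
of the `n ≤ X` are followed by `m` others at bounded distance, in particular in the class `2` modulo `8`, where
congruent numbers are expected to have density zero. If `Y` is at least `X ^ (11/12 + ε)` the numbers `(n + d i) / k` can
be taken with at most `R` prime factors, all of them larger than `X ^ (1 / R)`, with `c Y / (X ^ (3/4) log ^ (4 m + 4) X)`
such `n`.

Proof. For `x ≡ 1` modulo `W` and `w = W j` the number `k (x ^ 4 - k ^ 2 w ^ 4)` is congruent (it is the area of the right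
triangle with the legs `(x ^ 4 - k ^ 2 w ^ 4) / (x w)` and `2 k x w`) and `≡ k` modulo `W`; for fixed `w` and `w'` the
difference of two of these numbers does not depend on `x`. The factors `x ^ 2 ± k w ^ 2` for `1 ≤ j ≤ m + 1` are sieved.
The squares of the primes `p > P` are removed by Pell equations: `x ^ 2 = r p ^ 2 + N` has at most `N ^ 2` solutions with
`T < x ≤ 2 T`, for each `r`.
-/

set_option autoImplicit false

namespace Pool.Agent.Results.MP_f126a2_nt.BoundedClusters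

/-- `n` is the area of a right triangle with rational sides -/
def IsCongruent (n : ℕ) : Prop :=
  ∃ a b c : ℚ, 0 < a ∧ 0 < b ∧ 0 < c ∧ a ^ 2 + b ^ 2 = c ^ 2 ∧ (n : ℚ) = a * b / 2

/-- `n` is an even squarefree congruent number in the class of `k` modulo `M` -/
def InClass (M k n : ℕ) : Prop := Even n ∧ Squarefree n ∧ n ≡ k [MOD M] ∧ IsCongruent n

/-- `r` has at most `R` prime factors (with multiplicity), all of them larger than `X ^ (1 / R)` -/
def AlmostPrime (R : ℕ) (X : ℝ) (r : ℕ) : Prop :=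
  r.primeFactorsList.length ≤ R ∧ ∀ p : ℕ, p.Prime → p ∣ r → X ^ (1 / (R : ℝ)) < (p : ℝ)

lemma even_of (M k n : ℕ) (heven : Even k) (h : n ≡ k [MOD 8 * M]) : Even n ∧ n ≡ k [MOD M] := by
  refine ⟨?_, h.of_dvd (Dvd.intro_left _ rfl)⟩
  have h2 : n ≡ k [MOD 2] := h.of_dvd ⟨4 * M, by ring⟩
  rw [Nat.even_iff] at heven ⊢
  rw [← heven]
  exact h2

/-- **Bounded clusters of even squarefree congruent numbers in every residue class.** Let `k` be even and squarefree,
`M ≥ 1`, `m ≥ 0`. There are `0 = d 0 < d 1 < ... < d m` with the following properties.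

1. There are `C`, `c > 0` and `X₀` such that for all real `X ≥ X₀` and all `Y` with `C X ^ (11/12) ≤ Y ≤ X` at least
`c Y / X ^ (3/4)` of the integers `n` in `[X, X + Y]` are such that all the numbers `n + d i` are even squarefree congruent
numbers `≡ k` modulo `M`.

2. For every `ε > 0` there are `R`, `c > 0` and `X₀` such that for all real `X ≥ X₀` and all `Y` with
`X ^ (11/12 + ε) ≤ Y ≤ X` at least `c Y / (X ^ (3/4) (log X) ^ (4 (m + 1)))` of the integers `n` in `[X, X + Y]` have this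
property and the numbers `(n + d i) / k` are integers with at most `R` prime factors, all of them larger than
`X ^ (1 / R)`. -/
theorem result (M k m : ℕ) (hM : 0 < M) (hk : Squarefree k) (heven : Even k) :
    ∃ d : Fin (m + 1) → ℕ, StrictMono d ∧ d 0 = 0 ∧
      (∃ C c X₀ : ℝ, 0 < c ∧ ∀ X Y : ℝ, X₀ ≤ X → C * X ^ (11 / 12 : ℝ) ≤ Y → Y ≤ X →
        c * (Y / X ^ (3 / 4 : ℝ)) ≤
          ({n : ℕ | X ≤ n ∧ (n : ℝ) ≤ X + Y ∧ ∀ i, InClass M k (n + d i)}.ncard : ℝ)) ∧
      (∀ ε : ℝ, 0 < ε → ∃ R : ℕ, 1 ≤ R ∧ ∃ c X₀ : ℝ, 0 < c ∧ ∀ X Y : ℝ, X₀ ≤ X → X ^ (11 / 12 + ε) ≤ Y → Y ≤ X →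
        c * (Y / (X ^ (3 / 4 : ℝ) * Real.log X ^ (4 * (m + 1)))) ≤
          ({n : ℕ | X ≤ n ∧ (n : ℝ) ≤ X + Y ∧ ∀ i, InClass M k (n + d i) ∧
            ∃ r : ℕ, n + d i = k * r ∧ AlmostPrime R X r}.ncard : ℝ)) := by
  obtain ⟨d, hd, hd0, ⟨C, c, X₀, hc, h1⟩, h2⟩ := Pool.Agent.CNC.main M k m hM hk
  have hfin : ∀ (X Y : ℝ) (p : ℕ → Prop), {n : ℕ | X ≤ n ∧ (n : ℝ) ≤ X + Y ∧ p n}.Finite := by
    intro X Y p
    apply (Set.finite_le_nat ⌊X + Y⌋₊).subset
    intro n hn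
    exact Nat.le_floor hn.2.1
  refine ⟨d, hd, hd0, ⟨C, c, X₀, hc, fun X Y hX hY1 hY2 => ?_⟩, fun ε hε => ?_⟩
  · refine (h1 X Y hX hY1 hY2).trans ?_
    have hsub : {n : ℕ | X ≤ n ∧ (n : ℝ) ≤ X + Y ∧ ∀ i, Squarefree (n + d i) ∧ n + d i ≡ k [MOD 8 * M] ∧
        Pool.Agent.CNC.Cong (n + d i)} ⊆ {n : ℕ | X ≤ n ∧ (n : ℝ) ≤ X + Y ∧ ∀ i, InClass M k (n + d i)} := by
      rintro n ⟨g1, g2, g3⟩
      refine ⟨g1, g2, fun i => ?_⟩
      obtain ⟨g4, g5, g6⟩ := g3 i
      obtain ⟨g7, g8⟩ := even_of M k _ heven g5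
      exact ⟨g7, g4, g8, g6⟩
    exact_mod_cast Set.ncard_le_ncard hsub (hfin _ _ _)
  · obtain ⟨R, hR, c, X₀, hc, h3⟩ := h2 ε hε
    refine ⟨R, hR, c, X₀, hc, fun X Y hX hY1 hY2 => ?_⟩
    refine (h3 X Y hX hY1 hY2).trans ?_
    have hsub : {n : ℕ | X ≤ n ∧ (n : ℝ) ≤ X + Y ∧ ∀ i, Squarefree (n + d i) ∧ n + d i ≡ k [MOD 8 * M] ∧
        Pool.Agent.CNC.Cong (n + d i) ∧ ∃ r : ℕ, n + d i = k * r ∧ Pool.Agent.CNC.AP R X r} ⊆
        {n : ℕ | X ≤ n ∧ (n : ℝ) ≤ X + Y ∧ ∀ i, InClass M k (n + d i) ∧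
          ∃ r : ℕ, n + d i = k * r ∧ AlmostPrime R X r} := by
      rintro n ⟨g1, g2, g3⟩
      refine ⟨g1, g2, fun i => ?_⟩
      obtain ⟨g4, g5, g6, g9⟩ := g3 i
      obtain ⟨g7, g8⟩ := even_of M k _ heven g5
      exact ⟨⟨g7, g4, g8, g6⟩, g9⟩
    exact_mod_cast Set.ncard_le_ncard hsub (hfin _ _ _)

end Pool.Agent.Results.MP_f126a2_nt.BoundedClusters
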