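import Pool.Agent.Q250.CB.Both

set_option autoImplicit false

/-!
# Values of polynomials at even squarefree congruent numbers modulo one

Let `d ≥ 1`. There is `A` such that for all `M ≥ 1` and all squarefree `k` (even) the following holds. Let `P` be a real
polynomial of degree at most `d` with coefficient `α` of `x ^ d`, `X ≥ 1` and `0 < ε ≤ 1`. Either `α` is within
`C / (q ε ^ A X ^ d)` of a fraction `a / q` with `q ≤ C / ε ^ A`, or at least `c ε X ^ (1/2 - η)` squarefree congruent numbers
`n ≤ X`, `n ≡ k` modulo `2 M`, have `P n` within `ε` of an integer. If a coefficient of `P` other than the constant one is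
irrational then infinitely many of them have `P n` within `n ^ (-δ)` of an integer, with `δ > 0` depending only on `d`.

Proof. Let `W` be a multiple of `2 M k` and of all small primes, `t` a prime, `v = k W ^ 2 t ^ 2` and `u ≡ 1` modulo `W`,
`u > v`. The number `n = k u (u ^ 2 - v ^ 2)` is congruent and `≡ k` modulo `W`. A trigonometric minorant of degree `2 L`,
`L` about `1 / ε`, is summed over the values `P n`, where `u` runs through about `X ^ (1/3)` values. The `u` for which `n` is
not squarefree lie in residue classes modulo `p ^ 2`; for `p` up to `480 L` the minorant is replaced by `20 |D_L| ^ 2`, `D_L` the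
Dirichlet kernel, and summed over each class, for larger `p` they are counted. If one of the exponential sums is large,
the inverse theorem for Weyl sums yields the fraction `a / q`; the leading coefficient does not depend on `t`. The primes `t`
up to `X ^ (1/6)` and the divisor bound give the exponent `1/2 - η`.
-/

namespace Pool.Agent.Results.MP_f126a2_nt.ValuesOfPolynomials

open Polynomial

/-- `n` is the area of a right triangle with rational sides. -/
def IsCongruent (n : ℕ) : Prop :=
  ∃ a b c : ℚ, 0 < a ∧ 0 < b ∧ 0 < c ∧ a ^ 2 + b ^ 2 = c ^ 2 ∧ (n : ℚ) = a * b / 2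

/-- **Values of polynomials at even congruent numbers.** -/
theorem result (d : ℕ) (hd : 1 ≤ d) : ∃ A : ℕ, ∃ δ : ℝ, 0 < δ ∧ ∀ M : ℕ, 0 < M → ∀ k : ℕ, Squarefree k →
    Even k →
    (∀ η : ℝ, 0 < η → ∃ c C : ℝ, 0 < c ∧ 0 < C ∧ ∀ P : ℝ[X], P.natDegree ≤ d →
      ∀ X ε : ℝ, 1 ≤ X → 0 < ε → ε ≤ 1 →
      (∃ q : ℕ, 1 ≤ q ∧ (q : ℝ) ≤ C / ε ^ A ∧
        ∃ a : ℤ, |q * P.coeff d - a| ≤ C / (ε ^ A * X ^ d)) ∨
      c * ε * X ^ (1 / 2 - η) ≤ ({n : ℕ | (n : ℝ) ≤ X ∧ Squarefree n ∧ n ≡ k [MOD 2 * M] ∧
        (Even n ∧ IsCongruent n) ∧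
        ∃ m : ℤ, |P.eval (n : ℝ) - m| < ε}.ncard : ℝ)) ∧
    (∀ P : ℝ[X], P.natDegree ≤ d → (∃ i, 1 ≤ i ∧ Irrational (P.coeff i)) →
      {n : ℕ | Squarefree n ∧ n ≡ k [MOD 2 * M] ∧
        (Even n ∧ IsCongruent n) ∧
        ∃ m : ℤ, |P.eval (n : ℝ) - m| < (n : ℝ) ^ (-δ)}.Infinite) :=
  Pool.Agent.Q250.CB.transport d hd (fun n => Even n ∧ IsCongruent n) (fun k => Even k) 2 (by norm_num)
    (fun n k hk hn h => by
      refine ⟨?_, h⟩
      have h1 : n % 2 = k % 2 := hn
      rw [Nat.even_iff] at hk ⊢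
      omega)

end Pool.Agent.Results.MP_f126a2_nt.ValuesOfPolynomials
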